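import Pool.Agent.Lib.MP_4fbe7c_an.RS.Iface
import Pool.Agent.Lib.MP_4fbe7c_an.SD.Int
import Pool.Agent.Lib.MP_4fbe7c_an.SD.Lyap

/-!
Module RDV (helper50): derivative of `Vr`.
-/

set_option autoImplicit false

open Set

namespace Pool.Agent.Lib.MP_4fbe7c_an.RS.H50

open Pool.Agent.Lib.MP_4fbe7c_an.SD Pool.Agent.Lib.MP_4fbe7c_an.SD.Lyap
  Pool.Agent.Lib.MP_4fbe7c_an.FC

/-- The pointwise inequality. -/
theorem rdv_pw {th m₀ z Z δ W X q : ℝ} (hm₀ : 0 < m₀) (hth : m₀ ≤ th) (hz : |z| ≤ Z)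
    (hZ : 20 * δ * Z ^ 2 ≤ 3 * m₀) (hδ : 0 < δ) (hW : 0 ≤ W) (hf : 0 ≤ th + X - W) :
    -X ^ 2 - δ * th * q ^ 2 + δ * z * (X - W) * q - δ * z ^ 2 * W ≤
      -(X ^ 2 / 2) - δ * m₀ / 8 * q ^ 2 - δ / 3 * z ^ 2 * W := by
  have hz2 : z ^ 2 ≤ Z ^ 2 := by
    rw [← sq_abs z]
    exact pow_le_pow_left₀ (abs_nonneg z) hz 2
  have hδz : 20 * (δ * z ^ 2) ≤ 3 * m₀ := by
    have := mul_le_mul_of_nonneg_left hz2 hδ.le
    linarith
  have hq : 0 ≤ q ^ 2 := sq_nonneg q
  have hz0 : 0 ≤ z ^ 2 := sq_nonneg z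
  have hzW : 0 ≤ δ * (z ^ 2 * W) := mul_nonneg hδ.le (mul_nonneg hz0 hW)
  rcases le_or_gt W (2 * th) with h | h
  · have h1 : 0 ≤ (X - δ * z * q) ^ 2 := sq_nonneg _
    have h2 : 0 ≤ δ * W * (z + 3 / 4 * q) ^ 2 := by positivity
    have h3 : 0 ≤ δ * q ^ 2 * (th - m₀ / 8 - δ * z ^ 2 / 2 - 3 / 8 * W) := by
      apply mul_nonneg (mul_nonneg hδ.le hq)
      linarith
    nlinarith [h1, h2, h3]
  · have hX : W / 2 < X := by linarith
    have h1 : (X - W) ^ 2 ≤ X ^ 2 := by nlinarith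
    have h2 : 0 ≤ ((X - W) - δ * z * q) ^ 2 := sq_nonneg _
    have h3 : 0 ≤ δ * q ^ 2 * (th - m₀ / 8 - δ * z ^ 2 / 2) := by
      apply mul_nonneg (mul_nonneg hδ.le hq)
      linarith
    nlinarith [h1, h2, h3]

/-- The pointwise identity. -/
theorem rdv_id {f v w th th' th'' m W Wp DW δ : ℝ} (hf : f ≠ 0) (hth : th ≠ 0)
    (hs : δ * th'' + th * (m - th) = 0) :
    (δ * w + f * (m - (f + W))) - th * ((δ * w + f * (m - (f + W))) / f) +
        (DW + W * (m - (f + W))) =
      (δ * w + DW - δ * (th' * (v / f) + th * ((w * f - v * v) / f ^ 2)) -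
        δ * ((v + Wp - th') * (th' / th) +
          (f + W - th) * ((th'' * th - th' * th') / th ^ 2))) +
      (-(f + W - th) ^ 2 - δ * th * (v / f - th' / th) ^ 2 +
        δ * (th' / th) * ((f + W - th) - W) * (v / f - th' / th) -
        δ * (th' / th) ^ 2 * W) + δ * ((th' / th) * Wp) := by
  have e1 : m = th - δ * th'' / th := by
    field_simp
    linarith
  rw [e1]
  field_simp
  ring

theorem rdv : RdvStatement := by
  intro L M m₀ Z m θ θ' θ'' N d u v w i hC hθ hm₀ hθm hθZ hdZ hp t ht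
  have hL := hC.hL
  have h := hC.sol
  have hd := hC.hd i
  have cu : ∀ i, ContinuousOn (fun p : ℝ × ℝ => u i p.1 p.2) (Ioi 0 ×ˢ Icc 0 L) := fun i =>
    (h.cu i).mono (prod_mono Ioi_subset_Ici_self subset_rfl)
  have spm : ContinuousOn (fun p : ℝ × ℝ => m p.2) (Ioi 0 ×ˢ Icc 0 L) := space_continuousOn hC.hm
  have cθ : ContinuousOn θ (Icc 0 L) := hθ.d1.continuousOn
  have cθ' : ContinuousOn θ' (Icc 0 L) := hθ.d2.continuousOn
  have cθ'' : ContinuousOn θ'' (Icc 0 L) := by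
    have h1 : ContinuousOn (fun x => -(θ x * (m x - θ x)) / d i) (Icc 0 L) :=
      ((cθ.mul (hC.hm.sub cθ)).neg).div_const _
    refine h1.congr fun x hx => ?_
    have h2 := hθ.eq x hx
    show θ'' x = -(θ x * (m x - θ x)) / d i
    rw [eq_div_iff hd.ne']
    linarith
  have spθ : ContinuousOn (fun p : ℝ × ℝ => θ p.2) (Ioi 0 ×ˢ Icc 0 L) := space_continuousOn cθ
  have hθne : ∀ x ∈ Icc 0 L, θ x ≠ 0 := fun x hx => (hθ.pos x hx).ne'
  have hne : ∀ p ∈ (Ioi (0 : ℝ)) ×ˢ (Icc 0 L), u i p.1 p.2 ≠ 0 := fun p hp' =>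
    (hp p.1 hp'.1 p.2 hp'.2).ne'
  have hu0 := nonneg hL hC.hm hC.hd h
  let ut : Fin N → ℝ → ℝ → ℝ := fun k s x => d k * w k s x + u k s x * (m x - ∑ j, u j s x)
  have cut : ∀ k, ContinuousOn (fun p : ℝ × ℝ => ut k p.1 p.2) (Ioi 0 ×ˢ Icc 0 L) := by
    intro k
    have h1 : ContinuousOn (fun p : ℝ × ℝ => ∑ j, u j p.1 p.2) (Ioi 0 ×ˢ Icc 0 L) :=
      continuousOn_finsetSum _ fun j _ => cu j
    exact ((h.cw k).const_mul (d k)).add ((cu k).mul (spm.sub h1))
  let g : ℝ → ℝ → ℝ := fun s x => u i s x - θ x - θ x * Real.log (u i s x / θ x) +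
    ∑ k ∈ Finset.univ.erase i, u k s x
  let gt : ℝ → ℝ → ℝ := fun s x => ut i s x - θ x * (ut i s x / u i s x) +
    ∑ k ∈ Finset.univ.erase i, ut k s x
  have cg : ContinuousOn (fun p : ℝ × ℝ => g p.1 p.2) (Ioi 0 ×ˢ Icc 0 L) := by
    refine (((cu i).sub spθ).sub (spθ.mul (((cu i).div spθ ?_).log ?_))).add
      (continuousOn_finsetSum _ fun j _ => cu j)
    · exact fun p hp' => hθne p.2 hp'.2
    · exact fun p hp' => div_ne_zero (hne p hp') (hθne p.2 hp'.2)
  have cgt : ContinuousOn (fun p : ℝ × ℝ => gt p.1 p.2) (Ioi 0 ×ˢ Icc 0 L) :=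
    ((cut i).sub (spθ.mul ((cut i).div (cu i) hne))).add
      (continuousOn_finsetSum _ fun j _ => cut j)
  have hV := hasDerivAt_integral hL cg cgt (fun s hs x hx => by
    have h2 : ∀ j ∈ Finset.univ.erase i, HasDerivAt (fun r => u j r x) (ut j s x) s :=
      fun j _ => h.dt j s hs x hx
    have h3 : HasDerivAt (fun r => u i r x) (ut i s x) s := h.dt i s hs x hx
    have h4 : HasDerivAt (fun r => Real.log (u i r x / θ x)) (ut i s x / u i s x) s := by
      have h5 := (h3.div_const (θ x)).log (div_ne_zero (hp s hs x hx).ne' (hθne x hx))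
      have h6 : ut i s x / θ x / (u i s x / θ x) = ut i s x / u i s x :=
        div_div_div_cancel_right₀ (hθne x hx) _ _
      rwa [h6] at h5
    exact ((h3.sub_const (θ x)).sub (h4.const_mul (θ x))).add (HasDerivAt.fun_sum h2))
  refine ⟨∫ x in (0)..L, gt t x, hV t ht, ?_⟩
  have su : ∀ i, ContinuousOn (u i t) (Icc 0 L) := fun i => slice_continuousOn ht (cu i)
  have sv : ∀ i, ContinuousOn (v i t) (Icc 0 L) := fun i => slice_continuousOn ht (h.cv i)
  have sw : ∀ i, ContinuousOn (w i t) (Icc 0 L) := fun i => slice_continuousOn ht (h.cw i)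
  have sne : ∀ x ∈ Icc 0 L, u i t x ≠ 0 := fun x hx => (hp t ht x hx).ne'
  have sW : ContinuousOn (fun x => ∑ k ∈ Finset.univ.erase i, u k t x) (Icc 0 L) :=
    continuousOn_finsetSum _ fun j _ => su j
  have sWp : ContinuousOn (fun x => ∑ k ∈ Finset.univ.erase i, v k t x) (Icc 0 L) :=
    continuousOn_finsetSum _ fun j _ => sv j
  have sDW : ContinuousOn (fun x => ∑ k ∈ Finset.univ.erase i, d k * w k t x) (Icc 0 L) :=
    continuousOn_finsetSum _ fun j _ => (sw j).const_mul (d j)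
  have sp : ContinuousOn (fun x => v i t x / u i t x) (Icc 0 L) := (sv i).div (su i) sne
  have sz : ContinuousOn (fun x => θ' x / θ x) (Icc 0 L) := cθ'.div cθ hθne
  have sgt : ContinuousOn (gt t) (Icc 0 L) := slice_continuousOn ht cgt
  -- the divergence term
  let J' : ℝ → ℝ := fun x => d i * w i t x + (∑ k ∈ Finset.univ.erase i, d k * w k t x) -
    d i * (θ' x * (v i t x / u i t x) +
      θ x * ((w i t x * u i t x - v i t x * v i t x) / u i t x ^ 2)) -
    d i * ((v i t x + (∑ k ∈ Finset.univ.erase i, v k t x) - θ' x) * (θ' x / θ x) +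
      (u i t x + (∑ k ∈ Finset.univ.erase i, u k t x) - θ x) *
        ((θ'' x * θ x - θ' x * θ' x) / θ x ^ 2))
  have hJ : DerivOn L (fun x => d i * v i t x + (∑ k ∈ Finset.univ.erase i, d k * v k t x) -
      d i * (θ x * (v i t x / u i t x)) -
      d i * ((u i t x + (∑ k ∈ Finset.univ.erase i, u k t x) - θ x) * (θ' x / θ x))) J' := by
    intro x hx
    have a1 : ∀ j ∈ Finset.univ.erase i, HasDerivWithinAt
        (fun y => d j * v j t y) (d j * w j t x) (Icc 0 L) x := fun j _ =>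
      (h.dxx j t ht x hx).const_mul (d j)
    have a2 : ∀ j ∈ Finset.univ.erase i, HasDerivWithinAt
        (fun y => u j t y) (v j t x) (Icc 0 L) x := fun j _ => h.dx j t ht x hx
    exact ((((h.dxx i t ht x hx).const_mul (d i)).add (HasDerivWithinAt.fun_sum a1)).sub
      (((hθ.d1 x hx).mul ((h.dxx i t ht x hx).div (h.dx i t ht x hx) (sne x hx))).const_mul
        (d i))).sub
      (((((h.dx i t ht x hx).add (HasDerivWithinAt.fun_sum a2)).sub (hθ.d1 x hx)).mul
        ((hθ.d2 x hx).div (hθ.d1 x hx) (hθne x hx))).const_mul (d i))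
  have cJ' : ContinuousOn J' (Icc 0 L) := by
    refine ((((sw i).const_mul (d i)).add sDW).sub (((cθ'.mul sp).add (cθ.mul ?_)).const_mul
      (d i))).sub (((((sv i).add sWp).sub cθ').mul sz |>.add ((((su i).add sW).sub cθ).mul
        ?_)).const_mul (d i))
    · exact (((sw i).mul (su i)).sub ((sv i).mul (sv i))).div ((su i).pow 2)
        fun x hx => pow_ne_zero 2 (sne x hx)
    · exact ((cθ''.mul cθ).sub (cθ'.mul cθ')).div (cθ.pow 2)
        fun x hx => pow_ne_zero 2 (hθne x hx)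
  have hJint := integral_deriv hL hJ cJ'
  simp only [h.b0 _ t ht, h.bL _ t ht, hθ.b0, hθ.bL, zero_div, mul_zero, sub_zero,
    Finset.sum_const_zero, add_zero] at hJint
  have hU : ∀ x, (∑ k, u k t x) = u i t x + ∑ k ∈ Finset.univ.erase i, u k t x := fun x =>
    (Finset.add_sum_erase _ (fun k => u k t x) (Finset.mem_univ i)).symm
  have key : ∀ x ∈ Icc 0 L, gt t x ≤ J' x - 1 / 2 * ((∑ k, u k t x) - θ x) ^ 2 -
      d i * m₀ / 8 * (v i t x / u i t x - θ' x / θ x) ^ 2 +
      d i * ∑ k ∈ Finset.univ.erase i, (θ' x / θ x * v k t x -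
        1 / 3 * ((θ' x / θ x) ^ 2 * u k t x)) := by
    intro x hx
    have hW : 0 ≤ ∑ k ∈ Finset.univ.erase i, u k t x :=
      Finset.sum_nonneg fun k _ => hu0 k t ht.le x hx
    have e2 : ∑ k ∈ Finset.univ.erase i, ut k t x =
        (∑ k ∈ Finset.univ.erase i, d k * w k t x) +
          (∑ k ∈ Finset.univ.erase i, u k t x) * (m x - ∑ j, u j t x) := by
      simp only [ut]
      rw [Finset.sum_add_distrib, Finset.sum_mul]
    have e3 : ∑ k ∈ Finset.univ.erase i, (θ' x / θ x * v k t x -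
        1 / 3 * ((θ' x / θ x) ^ 2 * u k t x)) =
        θ' x / θ x * (∑ k ∈ Finset.univ.erase i, v k t x) -
          1 / 3 * ((θ' x / θ x) ^ 2 * ∑ k ∈ Finset.univ.erase i, u k t x) := by
      rw [Finset.sum_sub_distrib, ← Finset.mul_sum, ← Finset.mul_sum, ← Finset.mul_sum]
    have e1 : gt t x = (ut i t x - θ x * (ut i t x / u i t x)) +
        ∑ k ∈ Finset.univ.erase i, ut k t x := rfl
    rw [e1, e2, e3]
    simp only [ut, J']
    rw [hU x]
    set W := ∑ k ∈ Finset.univ.erase i, u k t x with hWdef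
    set Wp := ∑ k ∈ Finset.univ.erase i, v k t x with hWpdef
    set DW := ∑ k ∈ Finset.univ.erase i, d k * w k t x with hDWdef
    have hid := rdv_id (f := u i t x) (v := v i t x) (w := w i t x) (th := θ x) (th' := θ' x)
      (th'' := θ'' x) (m := m x) (W := W) (Wp := Wp) (DW := DW) (δ := d i) (sne x hx)
      (hθne x hx) (hθ.eq x hx)
    rw [hid]
    have hpw := rdv_pw (th := θ x) (m₀ := m₀) (z := θ' x / θ x) (Z := Z) (δ := d i) (W := W)
      (X := u i t x + W - θ x) (q := v i t x / u i t x - θ' x / θ x) hm₀ (hθm x hx) (hθZ x hx)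
      hdZ hd hW (by
        have := (hp t ht x hx).le
        linarith)
    linarith
  have I1 : IntervalIntegrable J' MeasureTheory.volume 0 L :=
    ContinuousOn.intervalIntegrable (by rwa [uIcc_of_le hL.le])
  have ii : ∀ {f : ℝ → ℝ}, ContinuousOn f (Icc 0 L) →
      IntervalIntegrable f MeasureTheory.volume 0 L := fun hf =>
    ContinuousOn.intervalIntegrable (by rwa [uIcc_of_le hL.le])
  have sU : ContinuousOn (fun x => ∑ k, u k t x) (Icc 0 L) :=
    continuousOn_finsetSum _ fun j _ => su j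
  have I2 : IntervalIntegrable (fun x => 1 / 2 * ((∑ k, u k t x) - θ x) ^ 2)
    MeasureTheory.volume 0 L := ii (((sU.sub cθ).pow 2).const_mul _)
  have I3 : IntervalIntegrable (fun x => d i * m₀ / 8 * (v i t x / u i t x - θ' x / θ x) ^ 2)
    MeasureTheory.volume 0 L := ii (((sp.sub sz).pow 2).const_mul _)
  have I5 : ∀ k, IntervalIntegrable (fun x => θ' x / θ x * v k t x)
    MeasureTheory.volume 0 L := fun k => ii (sz.mul (sv k))
  have I6 : ∀ k, IntervalIntegrable (fun x => (θ' x / θ x) ^ 2 * u k t x)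
    MeasureTheory.volume 0 L := fun k => ii ((sz.pow 2).mul (su k))
  have I7 : ∀ k ∈ Finset.univ.erase i, IntervalIntegrable (fun x => θ' x / θ x * v k t x -
      1 / 3 * ((θ' x / θ x) ^ 2 * u k t x)) MeasureTheory.volume 0 L := fun k _ =>
    (I5 k).sub ((I6 k).const_mul _)
  have I4 : IntervalIntegrable (fun x => d i * ∑ k ∈ Finset.univ.erase i, (θ' x / θ x * v k t x -
      1 / 3 * ((θ' x / θ x) ^ 2 * u k t x))) MeasureTheory.volume 0 L := by
    apply ii
    apply ContinuousOn.const_mul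
    exact continuousOn_finsetSum _ fun k _ => (sz.mul (sv k)).sub
      (((sz.pow 2).mul (su k)).const_mul _)
  have h3 := intervalIntegral.integral_mono_on hL.le (ii sgt)
    (((I1.sub I2).sub I3).add I4) key
  rw [intervalIntegral.integral_add ((I1.sub I2).sub I3) I4,
    intervalIntegral.integral_sub (I1.sub I2) I3, intervalIntegral.integral_sub I1 I2,
    intervalIntegral.integral_const_mul, intervalIntegral.integral_const_mul,
    intervalIntegral.integral_const_mul, hJint,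
    intervalIntegral.integral_finsetSum I7] at h3
  have h4 : ∀ k ∈ Finset.univ.erase i, (∫ x in (0)..L, (θ' x / θ x * v k t x -
      1 / 3 * ((θ' x / θ x) ^ 2 * u k t x))) = (∫ x in (0)..L, θ' x / θ x * v k t x) -
        1 / 3 * ∫ x in (0)..L, (θ' x / θ x) ^ 2 * u k t x := by
    intro k _
    rw [intervalIntegral.integral_sub (I5 k) ((I6 k).const_mul _),
      intervalIntegral.integral_const_mul]
  rw [Finset.sum_congr rfl h4] at h3
  show (∫ x in (0)..L, gt t x) ≤ -(1 / 2 * ∫ x in (0)..L, ((∑ k, u k t x) - θ x) ^ 2) -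
    d i * m₀ / 8 * (∫ x in (0)..L, (v i t x / u i t x - θ' x / θ x) ^ 2) + _
  linarith

end Pool.Agent.Lib.MP_4fbe7c_an.RS.H50
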