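import Pool.Agent.Lib.MP_4fbe7c_an.RS.Iface
import Pool.Agent.Lib.MP_4fbe7c_an.FC.H16.PA

/-!
Module RLA (helper50): the auxiliary functional.
-/

set_option autoImplicit false

open Set

namespace Pool.Agent.Lib.MP_4fbe7c_an.RS.H50

open Pool.Agent.Lib.MP_4fbe7c_an.SD Pool.Agent.Lib.MP_4fbe7c_an.FC
  Pool.Agent.Lib.MP_4fbe7c_an.WH

theorem rla_mem_ps {L : ℝ} {N : ℕ} {u : Fin N → ℝ → ℝ → ℝ} {k : Fin N} :
    k ∈ PS L u ↔ Pres L u k := by
  unfold PS
  simp

theorem rla_yy_nonneg {L : ℝ} (hL : 0 < L) {N : ℕ} (u v : Fin N → ℝ → ℝ → ℝ) (k : Fin N)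
    (t : ℝ) : 0 ≤ yy L u v k t :=
  intervalIntegral.integral_nonneg hL.le fun _ _ => sq_nonneg _

theorem rla (h1 : LgdStatement) (h2 : LseStatement) (h3 : MassStatement) (h4 : YBuStatement)
    (h5 : RlgStatement) : RlaStatement := by
  classical
  intro L M D σ₀ C hL hM hD hσ₀ hC
  obtain ⟨K, hK, hYB⟩ := h4 L M D hD
  set B : ℝ := 2 * M * L with hB
  have hB0 : 0 < B := by positivity
  set E₁ : ℝ := Real.exp (1 + L * K) with hE₁
  have hE₁0 : 0 < E₁ := Real.exp_pos _
  refine ⟨σ₀ / (2 * C * (B + 1)), σ₀ * D / (2 * C * E₁ * (B + 1)), by positivity, by positivity,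
    ?_⟩
  intro m N d u v w i₀ hX hP₀ hdi hsum
  have hd := hX.hd
  set δ : ℝ := d i₀ with hδ
  have hδ0 : 0 < δ := hd i₀
  obtain ⟨hm0, T₁, hT₁, hmass⟩ := h3 L M m N d u v w hX
  -- the two sets
  set Ss : Finset (Fin N) := ((PS L u).erase i₀).filter fun k => d k < D with hSs
  set Sf : Finset (Fin N) := ((PS L u).erase i₀).filter fun k => ¬ d k < D with hSf
  have hSsP : ∀ k ∈ Ss, Pres L u k := fun k hk =>
    rla_mem_ps.mp (Finset.mem_of_mem_erase (Finset.mem_filter.mp hk).1)
  have hSfP : ∀ k ∈ Sf, Pres L u k := fun k hk =>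
    rla_mem_ps.mp (Finset.mem_of_mem_erase (Finset.mem_filter.mp hk).1)
  have hSsne : ∀ k ∈ Ss, k ∈ Finset.univ.erase i₀ := fun k hk =>
    Finset.mem_erase.mpr ⟨Finset.ne_of_mem_erase (Finset.mem_filter.mp hk).1, Finset.mem_univ k⟩
  have hSfne : ∀ k ∈ Sf, k ∈ Finset.univ.erase i₀ := fun k hk =>
    Finset.mem_erase.mpr ⟨Finset.ne_of_mem_erase (Finset.mem_filter.mp hk).1, Finset.mem_univ k⟩
  have hSfD : ∀ k ∈ Sf, D ≤ d k := fun k hk => not_lt.mp (Finset.mem_filter.mp hk).2
  -- the time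
  have hY : ∀ k, ∃ T : ℝ, k ∈ Sf → ∀ t, T ≤ t → yy L u v k t ≤ K := by
    intro k
    by_cases hk : k ∈ Sf
    · obtain ⟨T, _, hT⟩ := hYB m N d u v w k hX (hSfD k hk) (hSfP k hk)
      exact ⟨T, fun _ => hT⟩
    · exact ⟨0, fun h => absurd h hk⟩
  choose Tk hTk using hY
  set T : ℝ := T₁ + ∑ k, |Tk k| with hTdef
  have hTsum : 0 ≤ ∑ k, |Tk k| := Finset.sum_nonneg fun k _ => abs_nonneg _
  have hT0 : 0 < T := by linarith
  have hTkT : ∀ k, Tk k ≤ T := by
    intro k
    have a1 : |Tk k| ≤ ∑ k, |Tk k| :=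
      Finset.single_le_sum (f := fun k => |Tk k|) (fun k _ => abs_nonneg _) (Finset.mem_univ k)
    have a2 := le_abs_self (Tk k)
    linarith
  -- the weights
  set s : Fin N → ℝ := fun k => C * δ * (B + 1) / d k with hs
  have hs0 : ∀ k, 0 ≤ s k := fun k => by
    have := hd k
    positivity
  set sf : ℝ := if Sf.Nonempty then C * δ * E₁ * (B + 1) / D else 0 with hsf
  have hsf0 : 0 ≤ sf := by
    rw [hsf]
    split_ifs
    · positivity
    · exact le_rfl
  set σ : ℝ := (∑ k ∈ Ss, s k) + sf with hσ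
  have hσ0 : 0 ≤ σ := add_nonneg (Finset.sum_nonneg fun k _ => hs0 k) hsf0
  have hσσ : σ ≤ σ₀ := by
    have a1 : ∑ k ∈ Ss, s k ≤ σ₀ / 2 := by
      have b1 : ∑ k ∈ Ss, s k = C * (B + 1) *
          ∑ k ∈ (PS L u).erase i₀, if d k < D then d i₀ / d k else 0 := by
        rw [← Finset.sum_filter, Finset.mul_sum]
        refine Finset.sum_congr rfl fun k _ => ?_
        simp only [hs]
        ring
      rw [b1]
      have b2 := mul_le_mul_of_nonneg_left hsum (show 0 ≤ C * (B + 1) by positivity)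
      refine b2.trans (le_of_eq ?_)
      field_simp
    have a2 : sf ≤ σ₀ / 2 := by
      rw [hsf]
      split_ifs
      · have b1 : C * δ * E₁ * (B + 1) / D ≤
            C * (σ₀ * D / (2 * C * E₁ * (B + 1))) * E₁ * (B + 1) / D := by
          gcongr
        refine b1.trans (le_of_eq ?_)
        field_simp
      · positivity
    linarith
  set Q : ℝ := |L * Real.log (B / L)| with hQ
  refine ⟨σ, σ * Q, T, fun t => (∑ k ∈ Ss, s k * lg L u k t) +
      sf * (L * Real.log (∑ k ∈ Sf, gm L u k t)) - σ * lg L u i₀ t,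
    fun t => (∑ k ∈ Ss, s k * (d k * yy L u v k t + R1 L m u t)) +
      sf * ((∑ k ∈ Sf, gm L u k t / (∑ i ∈ Sf, gm L u i t) * (d k * yy L u v k t)) +
        R1 L m u t) - σ * (δ * yy L u v i₀ t + R1 L m u t), hσ0, hσσ, hT0, ?_⟩
  intro t ht
  have ht0 : 0 < t := hT0.trans_le ht
  have ht1 : T₁ ≤ t := by linarith
  have hmB : mass L u t ≤ B := (hmass t ht1).1
  have hg := h5 L M 1 m (fun _ => 1) N d u v w hX one_pos continuousOn_const
    (fun _ _ => le_rfl) t ht0
  have hmu0 : ∀ k, 0 ≤ mu L u k t := fun k => (hg k).1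
  have hmuB : ∀ k ∈ Finset.univ.erase i₀, mu L u k t ≤ B := by
    intro k hk
    have a1 : mu L u k t ≤ ∑ i ∈ Finset.univ.erase i₀, mu L u i t :=
      Finset.single_le_sum (f := fun i => mu L u i t) (fun i _ => hmu0 i) hk
    exact a1.trans ((hg i₀).2.2.1.trans hmB)
  have hyy0 : ∀ k, 0 ≤ yy L u v k t := fun k => rla_yy_nonneg hL u v k t
  have hlogB : ∀ x : ℝ, 0 < x → L * x ≤ B → L * Real.log x ≤ Q := by
    intro x hx hxB
    have a1 : x ≤ B / L := by
      rw [le_div_iff₀ hL]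
      linarith
    have a2 := mul_le_mul_of_nonneg_left (Real.log_le_log hx a1) hL.le
    exact a2.trans (le_abs_self _)
  refine ⟨?_, ?_, ?_⟩
  · have a1 : HasDerivAt (fun t => ∑ k ∈ Ss, s k * lg L u k t)
        (∑ k ∈ Ss, s k * (d k * yy L u v k t + R1 L m u t)) t :=
      HasDerivAt.fun_sum fun k hk => (h1 L M m N d u v w k hX (hSsP k hk) t ht0).const_mul (s k)
    have a2 : HasDerivAt (fun t => sf * (L * Real.log (∑ k ∈ Sf, gm L u k t)))
        (sf * ((∑ k ∈ Sf, gm L u k t / (∑ i ∈ Sf, gm L u i t) * (d k * yy L u v k t)) +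
        R1 L m u t)) t := by
      by_cases hne : Sf.Nonempty
      · exact (h2 L M m N d u v w Sf hX hne hSfP t ht0).2.const_mul sf
      · have b1 : sf = 0 := by rw [hsf, if_neg hne]
        rw [b1]
        simp only [zero_mul]
        exact hasDerivAt_const _ _
    have a3 := (h1 L M m N d u v w i₀ hX hP₀ t ht0).const_mul σ
    exact (a1.add a2).sub a3
  · have a1 : ∑ k ∈ Ss, s k * lg L u k t ≤ (∑ k ∈ Ss, s k) * Q := by
      rw [Finset.sum_mul]
      refine Finset.sum_le_sum fun k hk => mul_le_mul_of_nonneg_left ?_ (hs0 k)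
      obtain ⟨b1, b2, b3, b4, b5, b6⟩ := (hg k).2.2.2 (hSsP k hk)
      refine b4.trans (hlogB _ (div_pos b1 hL) ?_)
      rw [mul_div_cancel₀ _ hL.ne']
      exact hmuB k (hSsne k hk)
    have a2 : sf * (L * Real.log (∑ k ∈ Sf, gm L u k t)) ≤ sf * Q := by
      by_cases hne : Sf.Nonempty
      · refine mul_le_mul_of_nonneg_left (hlogB _ ?_ ?_) hsf0
        · exact Finset.sum_pos (fun k _ => Real.exp_pos _) hne
        · exact (h2 L M m N d u v w Sf hX hne hSfP t ht0).1.trans hmB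
      · have b1 : sf = 0 := by rw [hsf, if_neg hne]
        rw [b1, zero_mul, zero_mul]
    show (∑ k ∈ Ss, s k * lg L u k t) +
      sf * (L * Real.log (∑ k ∈ Sf, gm L u k t)) - σ * lg L u i₀ t ≤ σ * Q - σ * lg L u i₀ t
    have a3 : σ * Q = (∑ k ∈ Ss, s k) * Q + sf * Q := by rw [hσ]; ring
    linarith
  · intro V hV hVs
    -- the sum over the present species
    have a1 : ∑ k ∈ Finset.univ.erase i₀, mu L u k t * yy L u v k t =
        (∑ k ∈ Ss, mu L u k t * yy L u v k t) + ∑ k ∈ Sf, mu L u k t * yy L u v k t := by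
      rw [Finset.sum_filter_add_sum_filter_not]
      symm
      apply Finset.sum_subset
      · exact Finset.erase_subset_erase _ (Finset.subset_univ _)
      · intro k hk hk'
        have b1 : k ∉ PS L u := fun h => hk' (Finset.mem_erase.mpr
          ⟨Finset.ne_of_mem_erase hk, h⟩)
        have b2 : Absent L u k := by
          rcases (H16.pa L M m N d u v w hX k).1 with h | h
          · exact absurd (rla_mem_ps.mpr h) b1
          · exact h
        rw [(hg k).2.1 b2, zero_mul]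
    have a2 : ∀ k ∈ Ss, C * δ * ((1 + 1 / V) * (mu L u k t * yy L u v k t)) ≤
        s k * (d k * yy L u v k t) := by
      intro k hk
      have b1 := hmuB k (hSsne k hk)
      have b2 : mu L u k t ≤ V := (Finset.single_le_sum (f := fun i => mu L u i t)
        (fun i _ => hmu0 i) (hSsne k hk)).trans hVs
      have b3 : (1 + 1 / V) * mu L u k t ≤ B + 1 := by
        have c1 : 1 / V * mu L u k t ≤ 1 := by
          rw [one_div, inv_mul_le_iff₀ hV]
          linarith
        linarith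
      have b4 : s k * (d k * yy L u v k t) = C * δ * ((B + 1) * yy L u v k t) := by
        simp only [hs]
        have := (hd k).ne'
        field_simp
      rw [b4]
      have b5 := mul_le_mul_of_nonneg_right b3 (hyy0 k)
      have b6 := mul_le_mul_of_nonneg_left b5 (show 0 ≤ C * δ by positivity)
      calc C * δ * ((1 + 1 / V) * (mu L u k t * yy L u v k t))
          = C * δ * ((1 + 1 / V) * mu L u k t * yy L u v k t) := by ring
        _ ≤ _ := b6
    have a3 : ∀ k ∈ Sf, C * δ * ((1 + 1 / V) * (mu L u k t * yy L u v k t)) ≤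
        sf * (gm L u k t / (∑ i ∈ Sf, gm L u i t) * (d k * yy L u v k t)) := by
      intro k hk
      have hne : Sf.Nonempty := ⟨k, hk⟩
      set Gs : ℝ := ∑ i ∈ Sf, gm L u i t with hGs
      have hG0 : 0 < Gs := Finset.sum_pos (fun k _ => Real.exp_pos _) hne
      have hgk : 0 < gm L u k t := Real.exp_pos _
      obtain ⟨b1, b2, b3, b4, b5, b6⟩ := (hg k).2.2.2 (hSfP k hk)
      have c1 : mu L u k t ≤ L * gm L u k t * E₁ := by
        refine b3.trans (mul_le_mul_of_nonneg_left ?_ (by positivity))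
        rw [hE₁]
        apply Real.exp_le_exp.mpr
        have := hTk k hk t ((hTkT k).trans ht)
        have := mul_le_mul_of_nonneg_left this hL.le
        linarith
      have c2 : L * Gs ≤ V := by
        have e1 : L * Gs ≤ ∑ i ∈ Sf, mu L u i t := by
          rw [hGs, Finset.mul_sum]
          exact Finset.sum_le_sum fun i hi => ((hg i).2.2.2 (hSfP i hi)).2.1
        have e2 : ∑ i ∈ Sf, mu L u i t ≤ ∑ i ∈ Finset.univ.erase i₀, mu L u i t :=
          Finset.sum_le_sum_of_subset_of_nonneg (fun i hi => hSfne i hi)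
            (fun i _ _ => hmu0 i)
        exact e1.trans (e2.trans hVs)
      have c3 : L * Gs ≤ B := (h2 L M m N d u v w Sf hX hne hSfP t ht0).1.trans hmB
      have hLG : 0 < L * Gs := mul_pos hL hG0
      have c4 : 1 + 1 / V ≤ (B + 1) / (L * Gs) := by
        have e1 : 1 / V ≤ 1 / (L * Gs) := one_div_le_one_div_of_le hLG c2
        have e2 : 1 + 1 / (L * Gs) = (L * Gs + 1) / (L * Gs) := by
          field_simp
        have e3 : (L * Gs + 1) / (L * Gs) ≤ (B + 1) / (L * Gs) := by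
          gcongr
        linarith
      have c5 : (1 + 1 / V) * mu L u k t ≤ E₁ * (B + 1) * (gm L u k t / Gs) := by
        have e1 : (1 + 1 / V) * mu L u k t ≤
            (B + 1) / (L * Gs) * (L * gm L u k t * E₁) :=
          mul_le_mul c4 c1 (hmu0 k) (by positivity)
        refine e1.trans (le_of_eq ?_)
        field_simp
      have c6 : C * δ * E₁ * (B + 1) ≤ sf * d k := by
        rw [hsf, if_pos hne, div_mul_eq_mul_div, le_div_iff₀ hD]
        exact mul_le_mul_of_nonneg_left (hSfD k hk) (by positivity)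
      calc C * δ * ((1 + 1 / V) * (mu L u k t * yy L u v k t))
          = C * δ * ((1 + 1 / V) * mu L u k t * yy L u v k t) := by ring
        _ ≤ C * δ * (E₁ * (B + 1) * (gm L u k t / Gs) * yy L u v k t) :=
          mul_le_mul_of_nonneg_left (mul_le_mul_of_nonneg_right c5 (hyy0 k)) (by positivity)
        _ = C * δ * E₁ * (B + 1) * (gm L u k t / Gs * yy L u v k t) := by ring
        _ ≤ sf * d k * (gm L u k t / Gs * yy L u v k t) :=
          mul_le_mul_of_nonneg_right c6 (mul_nonneg (by positivity) (hyy0 k))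
        _ = _ := by ring
    have a4 : C * d i₀ * ((1 + 1 / V) *
        ∑ k ∈ Finset.univ.erase i₀, mu L u k t * yy L u v k t) =
        (∑ k ∈ Ss, C * δ * ((1 + 1 / V) * (mu L u k t * yy L u v k t))) +
          ∑ k ∈ Sf, C * δ * ((1 + 1 / V) * (mu L u k t * yy L u v k t)) := by
      rw [a1, ← Finset.mul_sum, ← Finset.mul_sum, ← Finset.mul_sum, ← Finset.mul_sum]
      ring
    have a5 := Finset.sum_le_sum a2
    have a6 : ∑ k ∈ Sf, C * δ * ((1 + 1 / V) * (mu L u k t * yy L u v k t)) ≤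
        sf * (∑ k ∈ Sf, gm L u k t / (∑ i ∈ Sf, gm L u i t) * (d k * yy L u v k t)) := by
      rw [Finset.mul_sum]
      exact Finset.sum_le_sum a3
    have a7 : ∑ k ∈ Ss, s k * (d k * yy L u v k t + R1 L m u t) =
        (∑ k ∈ Ss, s k * (d k * yy L u v k t)) + (∑ k ∈ Ss, s k) * R1 L m u t := by
      rw [Finset.sum_mul, ← Finset.sum_add_distrib]
      exact Finset.sum_congr rfl fun k _ => by ring
    rw [a4]
    show _ ≤ (∑ k ∈ Ss, s k * (d k * yy L u v k t + R1 L m u t)) +
      sf * ((∑ k ∈ Sf, gm L u k t / (∑ i ∈ Sf, gm L u i t) * (d k * yy L u v k t)) +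
        R1 L m u t) - σ * (δ * yy L u v i₀ t + R1 L m u t) + σ * d i₀ * yy L u v i₀ t
    rw [a7]
    have a8 : ((∑ k ∈ Ss, s k * (d k * yy L u v k t)) + (∑ k ∈ Ss, s k) * R1 L m u t) +
      sf * ((∑ k ∈ Sf, gm L u k t / (∑ i ∈ Sf, gm L u i t) * (d k * yy L u v k t)) +
        R1 L m u t) - σ * (δ * yy L u v i₀ t + R1 L m u t) + σ * d i₀ * yy L u v i₀ t =
        (∑ k ∈ Ss, s k * (d k * yy L u v k t)) +
      sf * (∑ k ∈ Sf, gm L u k t / (∑ i ∈ Sf, gm L u i t) * (d k * yy L u v k t)) := by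
      rw [hσ, hδ]
      ring
    rw [a8]
    exact add_le_add a5 a6

end Pool.Agent.Lib.MP_4fbe7c_an.RS.H50
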